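import Pool.Agent.Helper21.CU.St
import Pool.Agent.Helper60.GP.M_M1

/-!
# Project CU, module RNK: a large smooth part is rare
-/

set_option autoImplicit false

namespace Pool.Agent.Helper12.CU

open Finset Filter
open Pool.Agent.Helper21.CU

/-! ### the smooth part -/

theorem sp_one (z : ℝ) : sp z 1 = 1 := by
  unfold sp
  simp

theorem sp_mul (z : ℝ) (a b : ℕ) (ha : a ≠ 0) (hb : b ≠ 0) (h : a.Coprime b) :
    sp z (a * b) = sp z a * sp z b := by
  unfold sp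
  rw [Finset.prod_filter, Finset.prod_filter, Finset.prod_filter, h.primeFactors_mul,
    Finset.prod_union h.disjoint_primeFactors]
  congr 1
  · refine Finset.prod_congr rfl fun p hp => ?_
    have hpb : ¬ p ∣ b := by
      intro hb'
      have h1 := Nat.dvd_gcd (Nat.dvd_of_mem_primeFactors hp) hb'
      rw [h.gcd_eq_one] at h1
      exact (Nat.prime_of_mem_primeFactors hp).one_lt.ne' (Nat.dvd_one.1 h1)
    rw [Nat.factorization_mul ha hb, Finsupp.add_apply,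
      Nat.factorization_eq_zero_of_not_dvd hpb, add_zero]
  · refine Finset.prod_congr rfl fun p hp => ?_
    have hpa : ¬ p ∣ a := by
      intro ha'
      have h1 := Nat.dvd_gcd ha' (Nat.dvd_of_mem_primeFactors hp)
      rw [h.gcd_eq_one] at h1
      exact (Nat.prime_of_mem_primeFactors hp).one_lt.ne' (Nat.dvd_one.1 h1)
    rw [Nat.factorization_mul ha hb, Finsupp.add_apply,
      Nat.factorization_eq_zero_of_not_dvd hpa, zero_add]

open scoped Classical in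
theorem sp_pow (z : ℝ) (p j : ℕ) (hp : p.Prime) (hj : 1 ≤ j) :
    sp z (p ^ j) = if (p : ℝ) ≤ z then p ^ j else 1 := by
  unfold sp
  rw [Finset.prod_filter, Nat.primeFactors_prime_pow (by omega) hp, Finset.prod_singleton,
    hp.factorization_pow, Finsupp.single_eq_same]

/-! ### the multiplicative function -/

/-- `ρ(n) a(n)^θ / n` -/
noncomputable def ff (k : ℤ) (z θ : ℝ) (n : ℕ) : ℝ :=
  ((R k n).card : ℝ) * ((sp z n : ℕ) : ℝ) ^ θ / n

theorem ff_nonneg (k : ℤ) (z θ : ℝ) (n : ℕ) : 0 ≤ ff k z θ n := by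
  unfold ff
  positivity

theorem ff_one (k : ℤ) (z θ : ℝ) : ff k z θ 1 = 1 := by
  have h : R k 1 = {0} := by
    unfold R
    ext v
    simp
  unfold ff
  rw [h, sp_one]
  simp

theorem ff_mul (h1 : StCRT) (k : ℤ) (z θ : ℝ) (a b : ℕ) (h : a.Coprime b) :
    ff k z θ (a * b) = ff k z θ a * ff k z θ b := by
  rcases Nat.eq_zero_or_pos a with rfl | ha
  · rw [Nat.coprime_zero_left] at h
    rw [h, mul_one, ff_one, mul_one]
  rcases Nat.eq_zero_or_pos b with rfl | hb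
  · rw [Nat.coprime_zero_right] at h
    rw [h, one_mul, ff_one, one_mul]
  unfold ff
  rw [(h1 k a b ha hb h).1, sp_mul z a b ha.ne' hb.ne' h]
  push_cast
  rw [Real.mul_rpow (by positivity) (by positivity)]
  have ha' : (a : ℝ) ≠ 0 := by exact_mod_cast ha.ne'
  have hb' : (b : ℝ) ≠ 0 := by exact_mod_cast hb.ne'
  field_simp

/-! ### numerical lemmas -/

theorem geo (q : ℝ) (h0 : 0 ≤ q) (h1 : q ≤ 3 / 5) (n : ℕ) :
    ∑ j ∈ Icc 1 n, q ^ j ≤ q + 5 / 2 * q ^ 2 := by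
  have key : ∀ n : ℕ, (∑ j ∈ Icc 1 n, q ^ j) * (1 - q) = q - q ^ (n + 1) := by
    intro n
    induction n with
    | zero => simp
    | succ n ih =>
      rw [Finset.sum_Icc_succ_top (by omega), add_mul, ih]
      ring
  have h3 : (∑ j ∈ Icc 1 n, q ^ j) * (1 - q) ≤ (q + 5 / 2 * q ^ 2) * (1 - q) := by
    rw [key n]
    have := pow_nonneg h0 (n + 1)
    nlinarith [mul_nonneg (sq_nonneg q) (by linarith : (0 : ℝ) ≤ 3 - 5 * q)]
  exact le_of_mul_le_mul_right h3 (by linarith)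

theorem two78 : (2 : ℝ) ^ (-(7 / 8) : ℝ) ≤ 3 / 5 := by
  have h : ((2 : ℝ) ^ (-(7 / 8) : ℝ)) ^ 8 ≤ (3 / 5) ^ 8 := by
    rw [← Real.rpow_natCast, ← Real.rpow_mul (by norm_num),
      show (-(7 / 8) : ℝ) * ((8 : ℕ) : ℝ) = -((7 : ℕ) : ℝ) by norm_num,
      Real.rpow_neg (by norm_num), Real.rpow_natCast]
    norm_num
  exact (pow_le_pow_iff_left₀ (by positivity) (by norm_num) (by norm_num)).1 h

theorem q_bd (θ : ℝ) (hθ : θ ≤ 1 / 8) (p : ℕ) (hp : p.Prime) :
    (p : ℝ) ^ θ / p ≤ 3 / 5 ∧ ((p : ℝ) ^ θ / p) ^ 2 ≤ 1 / (p : ℝ) ^ (7 / 4 : ℝ) := by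
  have hp2 : (2 : ℝ) ≤ p := by exact_mod_cast hp.two_le
  have hp0 : (0 : ℝ) < p := by linarith
  have e : (p : ℝ) ^ θ / p = (p : ℝ) ^ (θ - 1) := (Real.rpow_sub_one hp0.ne' θ).symm
  have h1 : (p : ℝ) ^ θ / p ≤ (p : ℝ) ^ (-(7 / 8) : ℝ) := by
    rw [e]
    exact Real.rpow_le_rpow_of_exponent_le (by linarith) (by linarith)
  refine ⟨h1.trans ((Real.rpow_le_rpow_of_nonpos (by norm_num) hp2 (by norm_num)).trans two78), ?_⟩
  have h2 : ((p : ℝ) ^ θ / p) ^ 2 ≤ ((p : ℝ) ^ (-(7 / 8) : ℝ)) ^ 2 :=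
    pow_le_pow_left₀ (by positivity) h1 2
  refine h2.trans (le_of_eq ?_)
  rw [← Real.rpow_natCast, ← Real.rpow_mul hp0.le,
    show (-(7 / 8) : ℝ) * ((2 : ℕ) : ℝ) = -(7 / 4 : ℝ) by norm_num, Real.rpow_neg hp0.le, one_div]

open scoped Classical in
theorem fac (h2 : StPP) (k : ℤ) (hk : k ≠ 0) (z θ : ℝ) (hθ : θ ≤ 1 / 8) (p : ℕ)
    (hp : p.Prime) (n : ℕ) (B : ℝ) (hB0 : 0 ≤ B) (hB : (p : ℝ) ≤ z → (p : ℝ) ^ θ ≤ 1 + B) :
    1 + ∑ j ∈ Icc 1 n, ff k z θ (p ^ j) ≤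
      Real.exp (((R k p).card : ℝ) / p + (if (p : ℝ) ≤ z then 3 * B / p else 0) +
        10 * (1 / (p : ℝ) ^ (7 / 4 : ℝ)) +
        (if (p : ℤ) ∣ 3 * k then 2 * (((3 * k.natAbs) ^ 3 : ℕ) : ℝ) else 0)) := by
  have hp2 : (2 : ℝ) ≤ p := by exact_mod_cast hp.two_le
  have hp0 : (0 : ℝ) < p := by linarith
  obtain ⟨q, hq0, hq1, hq2, hqf, hqB⟩ : ∃ q : ℝ, 0 ≤ q ∧ q ≤ 3 / 5 ∧
      q ^ 2 ≤ 1 / (p : ℝ) ^ (7 / 4 : ℝ) ∧
      (∀ j, 1 ≤ j → ff k z θ (p ^ j) = ((R k (p ^ j)).card : ℝ) * q ^ j) ∧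
      q ≤ 1 / p + (if (p : ℝ) ≤ z then B / p else 0) := by
    by_cases hz : (p : ℝ) ≤ z
    · refine ⟨(p : ℝ) ^ θ / p, by positivity, (q_bd θ hθ p hp).1, (q_bd θ hθ p hp).2, ?_, ?_⟩
      · intro j hj
        unfold ff
        rw [sp_pow z p j hp hj, if_pos hz]
        push_cast
        rw [div_pow, ← Real.rpow_natCast ((p : ℝ) ^ θ) j, ← Real.rpow_mul hp0.le,
          ← Real.rpow_natCast (p : ℝ) j, ← Real.rpow_mul hp0.le, mul_comm θ (j : ℝ)]
        ring
      · rw [if_pos hz, ← add_div]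
        exact div_le_div_of_nonneg_right (hB hz) hp0.le
    · have h0 := q_bd 0 (by norm_num) p hp
      rw [Real.rpow_zero] at h0
      refine ⟨1 / p, by positivity, h0.1, h0.2, ?_, ?_⟩
      · intro j hj
        unfold ff
        rw [sp_pow z p j hp hj, if_neg hz]
        push_cast
        rw [Real.one_rpow, div_pow, one_pow]
        ring
      · rw [if_neg hz, add_zero]
  have hT0 : (0 : ℝ) ≤ 1 / (p : ℝ) ^ (7 / 4 : ℝ) := by positivity
  have hI0 : (0 : ℝ) ≤ if (p : ℝ) ≤ z then B / p else 0 := by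
    split_ifs
    · positivity
    · exact le_rfl
  have hI3 : (if (p : ℝ) ≤ z then 3 * B / p else 0) = 3 * (if (p : ℝ) ≤ z then B / p else 0) := by
    split_ifs
    · ring
    · ring
  rw [hI3]
  have hsum : ∑ j ∈ Icc 1 n, ff k z θ (p ^ j) =
      ∑ j ∈ Icc 1 n, ((R k (p ^ j)).card : ℝ) * q ^ j :=
    Finset.sum_congr rfl fun j hj => hqf j (Finset.mem_Icc.1 hj).1
  rw [hsum]
  have hg := geo q hq0 hq1 n
  by_cases hd : (p : ℤ) ∣ 3 * k
  · rw [if_pos hd]
    set K0 : ℝ := (((3 * k.natAbs) ^ 3 : ℕ) : ℝ) with hK0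
    have hK00 : 0 ≤ K0 := by positivity
    have h3 : ∑ j ∈ Icc 1 n, ((R k (p ^ j)).card : ℝ) * q ^ j ≤ K0 * (q + 5 / 2 * q ^ 2) := by
      refine le_trans ?_ (mul_le_mul_of_nonneg_left hg hK00)
      rw [Finset.mul_sum]
      refine Finset.sum_le_sum fun j hj => mul_le_mul_of_nonneg_right ?_ (pow_nonneg hq0 j)
      rw [hK0]
      exact_mod_cast (h2 k hk p j hp (Finset.mem_Icc.1 hj).1).2 hd
    have h4 : K0 * (q + 5 / 2 * q ^ 2) ≤ K0 * 2 :=
      mul_le_mul_of_nonneg_left (by nlinarith) hK00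
    have h5 : (0 : ℝ) ≤ ((R k p).card : ℝ) / p := div_nonneg (Nat.cast_nonneg _) hp0.le
    refine le_trans ?_ (Real.add_one_le_exp _)
    linarith
  · rw [if_neg hd, add_zero]
    obtain ⟨-, h33⟩ := (h2 k hk p 1 hp le_rfl).1 hd
    have h33' : ((R k p).card : ℝ) ≤ 3 := by exact_mod_cast h33
    have hρ0 : (0 : ℝ) ≤ ((R k p).card : ℝ) := Nat.cast_nonneg _
    have h3 : ∑ j ∈ Icc 1 n, ((R k (p ^ j)).card : ℝ) * q ^ j ≤
        ((R k p).card : ℝ) * (q + 5 / 2 * q ^ 2) := by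
      refine le_trans ?_ (mul_le_mul_of_nonneg_left hg hρ0)
      rw [Finset.mul_sum]
      refine Finset.sum_le_sum fun j hj => mul_le_mul_of_nonneg_right ?_ (pow_nonneg hq0 j)
      exact_mod_cast ((h2 k hk p j hp (Finset.mem_Icc.1 hj).1).1 hd).1
    set I : ℝ := if (p : ℝ) ≤ z then B / p else 0 with hI
    have h4 : ((R k p).card : ℝ) * q ≤ ((R k p).card : ℝ) / p + 3 * I := by
      calc ((R k p).card : ℝ) * q ≤ ((R k p).card : ℝ) * (1 / p + I) :=
            mul_le_mul_of_nonneg_left hqB hρ0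
        _ = ((R k p).card : ℝ) / p + ((R k p).card : ℝ) * I := by ring
        _ ≤ ((R k p).card : ℝ) / p + 3 * I := by
            have := mul_le_mul_of_nonneg_right h33' hI0
            linarith
    have h5 : ((R k p).card : ℝ) * (5 / 2 * q ^ 2) ≤ 10 * (1 / (p : ℝ) ^ (7 / 4 : ℝ)) := by
      have h6 : ((R k p).card : ℝ) * (5 / 2 * q ^ 2) ≤ 3 * (5 / 2 * q ^ 2) :=
        mul_le_mul_of_nonneg_right h33' (by positivity)
      linarith
    refine le_trans ?_ (Real.add_one_le_exp _)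
    have h7 : ((R k p).card : ℝ) * (q + 5 / 2 * q ^ 2) =
        ((R k p).card : ℝ) * q + ((R k p).card : ℝ) * (5 / 2 * q ^ 2) := by ring
    linarith

theorem conv (Λ t : ℝ) (h0 : 0 ≤ t) (h1 : t ≤ 1) :
    Real.exp (Λ * t) ≤ 1 + (Real.exp Λ - 1) * t := by
  have h := convexOn_exp.2 (Set.mem_univ (0 : ℝ)) (Set.mem_univ Λ) (sub_nonneg.2 h1) h0
    (by ring : 1 - t + t = 1)
  simp only [smul_eq_mul, mul_zero, zero_add, Real.exp_zero, mul_one] at h
  rw [mul_comm Λ t]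
  linarith

theorem evx (κ : ℝ) (hκ : 0 < κ) : ∀ᶠ x : ℕ in atTop, 3 ≤ x ∧
    64 * Real.log (Real.log x) ≤ Real.log x ∧ κ * Real.log (Real.log x) ≤ Real.log x := by
  have ht : Tendsto (fun x : ℕ => Real.log (x : ℝ)) atTop atTop :=
    Real.tendsto_log_atTop.comp tendsto_natCast_atTop_atTop
  have ho := Real.isLittleO_log_id_atTop.comp_tendsto ht
  have h1 := ho.def (by norm_num : (0 : ℝ) < 1 / 64)
  have h2 := ho.def (by positivity : (0 : ℝ) < 1 / κ)
  filter_upwards [h1, h2, eventually_ge_atTop 3] with x hx1 hx2 hx3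
  have hL : 0 ≤ Real.log (x : ℝ) := Real.log_natCast_nonneg x
  simp only [Function.comp_apply, id_eq, Real.norm_eq_abs, abs_of_nonneg hL] at hx1 hx2
  have h3 := (le_abs_self _).trans hx1
  have h4 := (le_abs_self _).trans hx2
  refine ⟨hx3, by linarith, ?_⟩
  have h5 := mul_le_mul_of_nonneg_left h4 hκ.le
  have h6 : κ * (1 / κ * Real.log (x : ℝ)) = Real.log (x : ℝ) := by
    field_simp
  linarith

theorem hRNK (h1 : StCRT) (h2 : StPP) (h3 : StMUL) (h4 : StRP) : StRNK := by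
  intro k hk κ hκ
  have hk0 : k ≠ 0 := by
    rintro rfl
    exact hk 0 (by norm_num)
  obtain ⟨C1, hC1, hRP⟩ := h4 k hk
  obtain ⟨C2, hM⟩ := Pool.Agent.Helper60.GP.hM1
  set Λ : ℝ := 8 / κ with hΛ
  have hΛ0 : 0 < Λ := by positivity
  set E0 : ℝ := Real.exp Λ - 1 with hE0
  have hE00 : 0 ≤ E0 := by
    have := Real.add_one_le_exp Λ
    linarith
  have hsm : Summable fun n : ℕ => 1 / (n : ℝ) ^ (7 / 4 : ℝ) :=
    Real.summable_one_div_nat_rpow.2 (by norm_num)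
  set S : ℝ := ∑' n : ℕ, 1 / (n : ℝ) ^ (7 / 4 : ℝ) with hS
  set K0 : ℝ := (((3 * k.natAbs) ^ 3 : ℕ) : ℝ) with hK0
  have hK00 : 0 ≤ K0 := by positivity
  set C : ℝ := Real.exp (C1 + 3 * E0 * (1 + |C2|) + 10 * S + 2 * K0 * (3 * k.natAbs : ℕ)) with hC
  obtain ⟨x₀, hx₀⟩ := eventually_atTop.1 (evx κ hκ)
  refine ⟨C, Real.exp_pos _, x₀, fun x hx => ?_⟩
  obtain ⟨hx3, hx64, hxκ⟩ := hx₀ x hx
  have hx3' : (3 : ℝ) ≤ x := by exact_mod_cast hx3
  have hxp : (0 : ℝ) < x := by linarith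
  set L : ℝ := Real.log (x : ℝ) with hL
  have hL1 : 1 < L := by
    rw [hL, Real.lt_log_iff_exp_lt hxp]
    exact Real.exp_one_lt_d9.trans (by linarith)
  set LL : ℝ := Real.log L with hLL
  have hLL0 : 0 < LL := Real.log_pos hL1
  have hL0 : 0 < L := by linarith
  set z : ℝ := zz κ x with hz
  have hlz : Real.log z = L / (κ * LL) := by
    rw [hz]
    unfold zz
    rw [Real.log_exp]
  have hlz1 : 1 ≤ Real.log z := by
    rw [hlz, le_div_iff₀ (by positivity)]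
    linarith
  have hz1 : 1 ≤ z := by
    rw [hz]
    unfold zz
    exact Real.one_le_exp (by positivity)
  set θ : ℝ := 8 * LL / L with hθ
  have hθ0 : 0 ≤ θ := by positivity
  have hθ1 : θ ≤ 1 / 8 := by
    rw [hθ, div_le_iff₀ hL0]
    linarith
  have hθΛ : θ = Λ / Real.log z := by
    rw [hθ, hlz, hΛ]
    field_simp
  -- the product
  set P : Finset ℕ := (Icc 1 x).filter Nat.Prime with hP
  have hMULx := h3 (ff k z θ) (ff_nonneg k z θ) (ff_one k z θ) (ff_mul h1 k z θ) P x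
    (fun p hp => (Finset.mem_filter.1 hp).2)
  classical
  have hfilt : (Icc 1 x).filter (fun a : ℕ => ∀ p : ℕ, p.Prime → p ∣ a → p ∈ P) = Icc 1 x := by
    refine Finset.filter_true_of_mem ?_
    intro a ha p hp hpa
    rw [Finset.mem_Icc] at ha
    rw [hP, Finset.mem_filter, Finset.mem_Icc]
    exact ⟨⟨hp.one_le, (Nat.le_of_dvd ha.1 hpa).trans ha.2⟩, hp⟩
  rw [hfilt] at hMULx
  set G : ℕ → ℝ := fun p => ((R k p).card : ℝ) / p +
    (if (p : ℝ) ≤ z then 3 * (E0 * (Real.log p / Real.log z)) / p else 0) +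
    10 * (1 / (p : ℝ) ^ (7 / 4 : ℝ)) + (if (p : ℤ) ∣ 3 * k then 2 * K0 else 0) with hG
  have hprod : ∏ p ∈ P, (1 + ∑ j ∈ Icc 1 x, ff k z θ (p ^ j)) ≤ Real.exp (∑ p ∈ P, G p) := by
    rw [Real.exp_sum]
    refine Finset.prod_le_prod ?_ ?_
    · intro p _
      have : 0 ≤ ∑ j ∈ Icc 1 x, ff k z θ (p ^ j) :=
        Finset.sum_nonneg fun j _ => ff_nonneg k z θ _
      linarith
    · intro p hp
      have hpp : p.Prime := (Finset.mem_filter.1 hp).2
      have hp1 : (1 : ℝ) ≤ p := by exact_mod_cast hpp.one_le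
      have hp0 : (0 : ℝ) < p := by linarith
      have hlp : 0 ≤ Real.log (p : ℝ) := Real.log_nonneg hp1
      have hB0 : 0 ≤ E0 * (Real.log (p : ℝ) / Real.log z) :=
        mul_nonneg hE00 (div_nonneg hlp (by linarith))
      have := fac h2 k hk0 z θ hθ1 p hpp x (E0 * (Real.log p / Real.log z)) hB0 ?_
      · convert this using 4
      · intro hpz
        rw [Real.rpow_def_of_pos hp0, hθΛ]
        have ht1 : Real.log (p : ℝ) / Real.log z ≤ 1 := by
          rw [div_le_one (by linarith)]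
          exact Real.log_le_log hp0 hpz
        have := conv Λ (Real.log (p : ℝ) / Real.log z) (div_nonneg hlp (by linarith)) ht1
        rw [show Real.log (p : ℝ) * (Λ / Real.log z) = Λ * (Real.log (p : ℝ) / Real.log z) by ring]
        exact this
  -- the exponent
  have hexp : ∑ p ∈ P, G p ≤ LL + (C1 + 3 * E0 * (1 + |C2|) + 10 * S +
      2 * K0 * (3 * k.natAbs : ℕ)) := by
    rw [hG, Finset.sum_add_distrib, Finset.sum_add_distrib, Finset.sum_add_distrib]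
    have g1 : ∑ p ∈ P, ((R k p).card : ℝ) / p ≤ LL + C1 := by
      have := hRP x hx3'
      rw [Nat.floor_natCast] at this
      exact this
    have g2 : ∑ p ∈ P, (if (p : ℝ) ≤ z then 3 * (E0 * (Real.log p / Real.log z)) / p else 0) ≤
        3 * E0 * (1 + |C2|) := by
      have e1 : ∑ p ∈ P, (if (p : ℝ) ≤ z then 3 * (E0 * (Real.log p / Real.log z)) / p else 0) =
          3 * E0 / Real.log z * ∑ p ∈ P.filter (fun p : ℕ => (p : ℝ) ≤ z), Real.log p / p := by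
        rw [← Finset.sum_filter, Finset.mul_sum]
        refine Finset.sum_congr rfl fun p _ => ?_
        ring
      rw [e1]
      have e2 : ∑ p ∈ P.filter (fun p : ℕ => (p : ℝ) ≤ z), Real.log p / p ≤
          ∑ p ∈ (Icc 1 ⌊z⌋₊).filter Nat.Prime, Real.log p / p := by
        refine Finset.sum_le_sum_of_subset_of_nonneg ?_ ?_
        · intro p hp
          rw [Finset.mem_filter, hP, Finset.mem_filter, Finset.mem_Icc] at hp
          rw [Finset.mem_filter, Finset.mem_Icc]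
          exact ⟨⟨hp.1.1.1, Nat.le_floor hp.2⟩, hp.1.2⟩
        · intro p _ _
          exact div_nonneg (Real.log_natCast_nonneg p) (Nat.cast_nonneg p)
      have e3 := (le_abs_self _).trans (hM z hz1)
      have e4 : ∑ p ∈ P.filter (fun p : ℕ => (p : ℝ) ≤ z), Real.log p / p ≤
          Real.log z * (1 + |C2|) := by
        have := le_abs_self C2
        have h5 := mul_nonneg (by linarith : (0 : ℝ) ≤ Real.log z - 1) (abs_nonneg C2)
        linarith
      have e5 := mul_le_mul_of_nonneg_left e4 (by positivity : 0 ≤ 3 * E0 / Real.log z)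
      refine e5.trans (le_of_eq ?_)
      have : Real.log z ≠ 0 := by linarith
      field_simp
    have g3 : ∑ p ∈ P, 10 * (1 / (p : ℝ) ^ (7 / 4 : ℝ)) ≤ 10 * S := by
      rw [← Finset.mul_sum]
      refine mul_le_mul_of_nonneg_left ?_ (by norm_num)
      exact hsm.sum_le_tsum P fun p _ => by positivity
    have g4 : ∑ p ∈ P, (if (p : ℤ) ∣ 3 * k then 2 * K0 else 0) ≤
        2 * K0 * (3 * k.natAbs : ℕ) := by
      rw [← Finset.sum_filter, Finset.sum_const, nsmul_eq_mul, mul_comm]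
      refine mul_le_mul_of_nonneg_left ?_ (by positivity)
      have hsub : P.filter (fun p : ℕ => (p : ℤ) ∣ 3 * k) ⊆ Icc 1 (3 * k.natAbs) := by
        intro p hp
        rw [Finset.mem_filter, hP, Finset.mem_filter, Finset.mem_Icc] at hp
        rw [Finset.mem_Icc]
        refine ⟨hp.1.1.1, Nat.le_of_dvd ?_ ?_⟩
        · have := Int.natAbs_pos.2 hk0
          omega
        · have h5 := Int.natCast_dvd.1 hp.2
          rwa [Int.natAbs_mul] at h5
      have := Finset.card_le_card hsub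
      rw [Nat.card_Icc, Nat.add_sub_cancel] at this
      exact_mod_cast this
    linarith
  have hfin : ∑ s ∈ Icc 1 x, ff k z θ s ≤ C * L := by
    refine hMULx.trans (hprod.trans ((Real.exp_le_exp.2 hexp).trans (le_of_eq ?_)))
    rw [Real.exp_add, hLL, Real.exp_log hL0, hC, mul_comm]
  -- Rankin
  have hR : ∀ s ∈ (Icc 1 x).filter (fun s : ℕ => (x : ℝ) ^ (1 / 4 : ℝ) < sp z s),
      ((R k s).card : ℝ) ≤ x / L ^ 2 * ff k z θ s := by
    intro s hs
    rw [Finset.mem_filter, Finset.mem_Icc] at hs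
    obtain ⟨⟨hs1, hsx⟩, hs2⟩ := hs
    have hs0 : (0 : ℝ) < s := by exact_mod_cast hs1
    have hsx' : (s : ℝ) ≤ x := by exact_mod_cast hsx
    have e1 : L ^ 2 ≤ ((sp z s : ℕ) : ℝ) ^ θ := by
      have e2 : ((x : ℝ) ^ (1 / 4 : ℝ)) ^ θ = L ^ 2 := by
        rw [← Real.rpow_mul hxp.le, Real.rpow_def_of_pos hxp]
        rw [show Real.log (x : ℝ) * (1 / 4 * θ) = LL + LL by
          rw [hθ, ← hL]
          field_simp
          ring]
        rw [Real.exp_add, hLL, Real.exp_log hL0]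
        ring
      rw [← e2]
      exact Real.rpow_le_rpow (by positivity) hs2.le hθ0
    unfold ff
    have hρ0 : (0 : ℝ) ≤ ((R k s).card : ℝ) := Nat.cast_nonneg _
    have e3 : (x : ℝ) / L ^ 2 * (((R k s).card : ℝ) * ((sp z s : ℕ) : ℝ) ^ θ / s) =
        ((R k s).card : ℝ) * ((x / s) * (((sp z s : ℕ) : ℝ) ^ θ / L ^ 2)) := by
      field_simp
    rw [e3]
    have e4 : 1 ≤ (x : ℝ) / s := (one_le_div hs0).2 hsx'
    have e5 : 1 ≤ ((sp z s : ℕ) : ℝ) ^ θ / L ^ 2 := (one_le_div (by positivity)).2 e1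
    have e6 : 1 ≤ ((x : ℝ) / s) * (((sp z s : ℕ) : ℝ) ^ θ / L ^ 2) := by nlinarith
    calc ((R k s).card : ℝ) = ((R k s).card : ℝ) * 1 := (mul_one _).symm
      _ ≤ _ := mul_le_mul_of_nonneg_left e6 hρ0
  calc ∑ s ∈ (Icc 1 x).filter (fun s : ℕ => (x : ℝ) ^ (1 / 4 : ℝ) < sp z s),
        ((R k s).card : ℝ)
      ≤ ∑ s ∈ (Icc 1 x).filter (fun s : ℕ => (x : ℝ) ^ (1 / 4 : ℝ) < sp z s),
        x / L ^ 2 * ff k z θ s := Finset.sum_le_sum hR
    _ ≤ ∑ s ∈ Icc 1 x, x / L ^ 2 * ff k z θ s :=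
        Finset.sum_le_sum_of_subset_of_nonneg (Finset.filter_subset _ _) fun s _ _ =>
          mul_nonneg (by positivity) (ff_nonneg k z θ s)
    _ = x / L ^ 2 * ∑ s ∈ Icc 1 x, ff k z θ s := by rw [Finset.mul_sum]
    _ ≤ x / L ^ 2 * (C * L) := mul_le_mul_of_nonneg_left hfin (by positivity)
    _ = C * x / L := by field_simp

end Pool.Agent.Helper12.CU
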